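import Mathlib

/-!
Morphisms from a projective object, and to an injective object, placed in degree zero of the
derived category.
-/

universe w v u

open CategoryTheory Limits Category

namespace Pool.Agent.T2H69.TT

variable {C : Type u} [Category.{v} C] [Abelian C]

lemma isKProjective_single (P : C) [Projective P] :
    CochainComplex.IsKProjective ((CochainComplex.singleFunctor C 0).obj P) := by
  have : ∀ n : ℤ, Projective (((CochainComplex.singleFunctor C 0).obj P).X n) := by
    intro n
    by_cases hn : n = 0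
    · subst hn
      exact Projective.of_iso (HomologicalComplex.singleObjXSelf (ComplexShape.up ℤ) 0 P).symm
        inferInstance
    · have hz : IsZero (((CochainComplex.singleFunctor C 0).obj P).X n) :=
        HomologicalComplex.isZero_single_obj_X (ComplexShape.up ℤ) 0 P n hn
      exact { factors := fun f e _ => ⟨0, hz.eq_of_src _ _⟩ }
  exact CochainComplex.isKProjective_of_projective _ 0

/-- A chain map from a projective object placed in degree zero which vanishes on homology is
null-homotopic. -/
lemma homotopy_of_homologyMap_eq_zero (P : C) [Projective P] (K : CochainComplex C ℤ)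
    (a : (HomologicalComplex.single C (ComplexShape.up ℤ) 0).obj P ⟶ K)
    (ha : HomologicalComplex.homologyMap a 0 = 0) : Nonempty (Homotopy a 0) := by
  let x : P ⟶ K.X 0 := (HomologicalComplex.singleObjXSelf (ComplexShape.up ℤ) 0 P).inv ≫ a.f 0
  let c : P ⟶ K.cycles 0 := (HomologicalComplex.singleObjCyclesSelfIso (ComplexShape.up ℤ) 0 P).inv ≫
    HomologicalComplex.cyclesMap a 0
  have hc : c ≫ K.iCycles 0 = x := by
    simp [c, x]
  have hc0 : c ≫ K.homologyπ 0 = 0 := by
    simp only [c, assoc]
    rw [← HomologicalComplex.homologyπ_naturality, ha, comp_zero, comp_zero]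
  let S : ShortComplex C := ShortComplex.mk (K.toCycles (-1) 0) (K.homologyπ 0) (by simp)
  have hS : S.Exact := by
    exact ShortComplex.exact_of_g_is_cokernel _ (K.homologyIsCokernel (-1) 0 (by simp))
  obtain ⟨l, hl⟩ : ∃ l : P ⟶ K.X (-1), l ≫ K.toCycles (-1) 0 = c :=
    ⟨hS.liftFromProjective c hc0, hS.liftFromProjective_comp c hc0⟩
  have hx : l ≫ K.d (-1) 0 = x := by
    rw [← hc, ← hl, assoc, HomologicalComplex.toCycles_i]
  let h : ∀ i j : ℤ, (ComplexShape.up ℤ).Rel j i →
      (((HomologicalComplex.single C (ComplexShape.up ℤ) 0).obj P).X i ⟶ K.X j) := fun i j hij =>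
    if hi : i = 0 then
      (HomologicalComplex.singleObjXIsoOfEq (ComplexShape.up ℤ) 0 P i hi).hom ≫ l ≫
        (K.XIsoOfEq (show (-1 : ℤ) = j by simp at hij; omega)).hom
    else 0
  have hah : a = Homotopy.nullHomotopicMap' h := by
    apply HomologicalComplex.from_single_hom_ext
    rw [Homotopy.nullHomotopicMap'_f (k₂ := -1) (k₁ := 0) (k₀ := 1) (by simp) (by simp)]
    simp only [HomologicalComplex.single_obj_d, zero_comp, zero_add]
    have h1 : h 0 (-1) (by simp) = (HomologicalComplex.singleObjXSelf (ComplexShape.up ℤ) 0 P).hom ≫ l := by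
      simp only [h, dif_pos]
      simp [HomologicalComplex.singleObjXSelf]
    rw [h1, assoc, hx]
    simp [x]
  rw [hah]
  exact ⟨Homotopy.nullHomotopy' h⟩

variable [HasDerivedCategory.{w} C]

open DerivedCategory

lemma eq_zero_of_projective (P : C) [Projective P] {Y : DerivedCategory C}
    (φ : (singleFunctor C 0).obj P ⟶ Y) (h : (homologyFunctor C 0).map φ = 0) : φ = 0 := by
  obtain ⟨K, ⟨e⟩⟩ : ∃ K : CochainComplex C ℤ, Nonempty (Y ≅ Q.obj K) :=
    ⟨Q.objPreimage Y, ⟨(Q.objObjPreimageIso Y).symm⟩⟩
  let e₀ := (singleFunctorIsoCompQ C 0).app P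
  let φ' : Q.obj ((CochainComplex.singleFunctor C 0).obj P) ⟶ Q.obj K := e₀.inv ≫ φ ≫ e.hom
  obtain ⟨a, ha⟩ : ∃ a : (CochainComplex.singleFunctor C 0).obj P ⟶ K, Q.map a = φ' := by
    have := isKProjective_single P
    obtain ⟨b, hb⟩ := (CochainComplex.IsKProjective.Qh_map_bijective
      ((CochainComplex.singleFunctor C 0).obj P) ((HomotopyCategory.quotient _ _).obj K)).surjective
      ((quotientCompQhIso C).hom.app _ ≫ φ' ≫ (quotientCompQhIso C).inv.app _)
    obtain ⟨a, rfl⟩ := (HomotopyCategory.quotient _ _).map_surjective b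
    refine ⟨a, ?_⟩
    have h1 := quotientCompQhIso_hom_naturality a
    rw [hb] at h1
    simp only [assoc, Iso.inv_hom_id_app, comp_id] at h1
    have h2 := (cancel_epi _).1 h1
    simpa using h2.symm
  have hφ' : (homologyFunctor C 0).map φ' = 0 := by
    simp only [φ', Functor.map_comp, h, zero_comp, comp_zero]
  have hm : HomologicalComplex.homologyMap a 0 = 0 := by
    have h1 := (homologyFunctorFactors C 0).hom.naturality a
    simp only [Functor.comp_map, ha, hφ', zero_comp] at h1
    have h2 := (cancel_epi _).1 (h1.symm.trans (comp_zero (X := _) (Y := _) (Z := _) (f :=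
      (homologyFunctorFactors C 0).hom.app _)).symm)
    exact h2
  obtain ⟨H⟩ := homotopy_of_homologyMap_eq_zero P K a hm
  have h0 : Q.map a = 0 := by
    have h1 := quotientCompQhIso_hom_naturality a
    have hz : (HomotopyCategory.quotient C (ComplexShape.up ℤ)).map a =
      (HomotopyCategory.quotient C (ComplexShape.up ℤ)).map 0 :=
      HomotopyCategory.eq_of_homotopy _ _ H
    rw [hz, Functor.map_zero, Functor.map_zero, zero_comp] at h1
    exact ((cancel_epi _).1 (h1.symm.trans comp_zero.symm))
  rw [h0] at ha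
  have : φ = e₀.hom ≫ φ' ≫ e.inv := by simp [φ']
  rw [this, ← ha]
  simp

omit [HasDerivedCategory.{w} C] in
/-- The map induced on homology in degree zero by the chain map to an object placed in degree zero
given by a morphism from the object of opcycles. -/
lemma homologyMap_mkHomToSingle (I : C) (K : CochainComplex C ℤ) (t : K.opcycles 0 ⟶ I) :
    ∃ b : K ⟶ (HomologicalComplex.single C (ComplexShape.up ℤ) 0).obj I,
      HomologicalComplex.homologyMap b 0 ≫
        (HomologicalComplex.singleObjHomologySelfIso (ComplexShape.up ℤ) 0 I).hom =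
        K.homologyι 0 ≫ t := by
  let b : K ⟶ (HomologicalComplex.single C (ComplexShape.up ℤ) 0).obj I :=
    HomologicalComplex.mkHomToSingle (K.pOpcycles 0 ≫ t) (by
      intro i _
      rw [HomologicalComplex.d_pOpcycles_assoc, zero_comp])
  refine ⟨b, ?_⟩
  have h1 : HomologicalComplex.opcyclesMap b 0 ≫
      (HomologicalComplex.singleObjOpcyclesSelfIso (ComplexShape.up ℤ) 0 I).inv = t := by
    rw [← cancel_epi (K.pOpcycles 0), HomologicalComplex.p_opcyclesMap_assoc,
      HomologicalComplex.pOpcycles_singleObjOpcyclesSelfIso_inv]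
    simp [b]
  rw [← h1, ← HomologicalComplex.homologyι_naturality_assoc,
    HomologicalComplex.homologyι_singleObjOpcyclesSelfIso_inv]

/-- The degree zero homology of an object placed in degree zero, for complexes. -/
noncomputable def chainSingleIso :
    CochainComplex.singleFunctor C 0 ⋙ HomologicalComplex.homologyFunctor C
      (ComplexShape.up ℤ) 0 ≅ 𝟭 C :=
  HomologicalComplex.homologyFunctorSingleIso C (ComplexShape.up ℤ) 0

omit [HasDerivedCategory.{w} C] in
lemma exists_chain_map_of_injective (I : C) [Injective I] (K : CochainComplex C ℤ)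
    (ψ : K.homology 0 ⟶ I) :
    ∃ b : K ⟶ (CochainComplex.singleFunctor C 0).obj I,
      (HomologicalComplex.homologyFunctor C (ComplexShape.up ℤ) 0).map b ≫
        chainSingleIso.hom.app I = ψ := by
  let t : K.opcycles 0 ⟶ I := Injective.factorThru ψ (K.homologyι 0)
  have ht : K.homologyι 0 ≫ t = ψ := Injective.comp_factorThru _ _
  obtain ⟨b, hb⟩ := homologyMap_mkHomToSingle I K t
  exact ⟨b, by rw [← ht, ← hb]; rfl⟩

/-- The degree zero homology of an object placed in degree zero. -/
noncomputable def singleHomologyIso :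
    singleFunctor C 0 ⋙ homologyFunctor C 0 ≅ 𝟭 C :=
  Functor.isoWhiskerRight (singleFunctorIsoCompQ C 0) (homologyFunctor C 0) ≪≫
    Functor.associator _ _ _ ≪≫
    Functor.isoWhiskerLeft _ (homologyFunctorFactors C 0) ≪≫ chainSingleIso

lemma exists_map_of_injective (I : C) [Injective I] {Y : DerivedCategory C}
    (ψ : (homologyFunctor C 0).obj Y ⟶ I) :
    ∃ r : Y ⟶ (singleFunctor C 0).obj I,
      (homologyFunctor C 0).map r ≫ singleHomologyIso.hom.app I = ψ := by
  obtain ⟨K, ⟨e⟩⟩ : ∃ K : CochainComplex C ℤ, Nonempty (Y ≅ Q.obj K) :=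
    ⟨Q.objPreimage Y, ⟨(Q.objObjPreimageIso Y).symm⟩⟩
  let ψ' : (HomologicalComplex.homologyFunctor C (ComplexShape.up ℤ) 0).obj K ⟶ I :=
    (homologyFunctorFactors C 0).inv.app K ≫ (homologyFunctor C 0).map e.inv ≫ ψ
  obtain ⟨b, hb⟩ := exists_chain_map_of_injective I K ψ'
  refine ⟨e.hom ≫ Q.map b ≫ (singleFunctorIsoCompQ C 0).inv.app I, ?_⟩
  have h2 := (homologyFunctorFactors C 0).hom.naturality b
  simp only [Functor.comp_map] at h2
  simp only [singleHomologyIso, Iso.trans_hom, NatTrans.comp_app,
      Functor.isoWhiskerRight_hom, Functor.whiskerRight_app, Functor.associator_hom_app,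
      Functor.isoWhiskerLeft_hom, Functor.whiskerLeft_app, id_comp]
  rw [Functor.map_comp, Functor.map_comp, assoc, assoc]
  rw [← Functor.map_comp_assoc (homologyFunctor C 0) ((singleFunctorIsoCompQ C 0).inv.app I)]
  rw [Iso.inv_hom_id_app, CategoryTheory.Functor.map_id]
  have h3 : (homologyFunctor C 0).map (Q.map b) ≫
        𝟙 ((homologyFunctor C 0).obj ((CochainComplex.singleFunctor C 0 ⋙ Q).obj I)) ≫
          (homologyFunctorFactors C 0).hom.app ((CochainComplex.singleFunctor C 0).obj I) ≫
            chainSingleIso.hom.app I = (homologyFunctorFactors C 0).hom.app K ≫ ψ' := by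
    rw [← hb, ← reassoc_of% h2]
    congr 1
    exact id_comp _
  rw [h3]
  simp only [ψ', Iso.hom_inv_id_app_assoc]
  rw [← Functor.map_comp_assoc]
  simp

end Pool.Agent.T2H69.TT
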