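import Pool.Agent.T2H69.TT.Unit

/-!
The formal part of the argument: a strong monoidal functor from a rigid abelian category with
projectives to a preadditive monoidal category with a compatible zeroth homology functor.
-/

universe v u v' u'

open CategoryTheory MonoidalCategory Limits Category

namespace Pool.Agent.T2H69.TT

variable {C : Type u} [Category.{v} C] [MonoidalCategory C]
variable {D : Type u'} [Category.{v'} D] [MonoidalCategory D]

open Functor.LaxMonoidal Functor.OplaxMonoidal in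
/-- A monoidal functor sends an exact pairing to an exact pairing. -/
@[instance_reducible]
noncomputable def mapPairing (S : C ⥤ D) [S.Monoidal] (X Y : C) [ExactPairing X Y] :
    ExactPairing (S.obj X) (S.obj Y) where
  coevaluation' := ε S ≫ S.map (η_ X Y) ≫ δ S X Y
  evaluation' := μ S Y X ≫ S.map (ε_ X Y) ≫ η S
  coevaluation_evaluation' := by
    have h := S.congr_map (ExactPairing.coevaluation_evaluation X Y)
    simp only [Functor.map_comp, Functor.Monoidal.map_whiskerLeft,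
      Functor.Monoidal.map_whiskerRight, Functor.Monoidal.map_associator_inv,
      Functor.Monoidal.map_rightUnitor, Functor.Monoidal.map_leftUnitor_inv, assoc,
      Functor.Monoidal.μ_δ_assoc, Functor.Monoidal.μ_δ] at h
    have h' := congrArg (fun t => S.obj Y ◁ ε S ≫ μ S Y (𝟙_ C) ≫ t ≫ δ S (𝟙_ C) Y ≫
      η S ▷ S.obj Y) h
    simp only [assoc, Functor.Monoidal.μ_δ_assoc, Functor.Monoidal.μ_δ] at h'
    simp only [whiskerLeft_comp, comp_whiskerRight, assoc]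
    rw [h']
    simp
  evaluation_coevaluation' := by
    have h := S.congr_map (ExactPairing.evaluation_coevaluation X Y)
    simp only [Functor.map_comp, Functor.Monoidal.map_whiskerLeft,
      Functor.Monoidal.map_whiskerRight, Functor.Monoidal.map_associator,
      Functor.Monoidal.map_rightUnitor_inv, Functor.Monoidal.map_leftUnitor, assoc,
      Functor.Monoidal.μ_δ_assoc, Functor.Monoidal.μ_δ] at h
    have h' := congrArg (fun t => ε S ▷ S.obj X ≫ μ S (𝟙_ C) X ≫ t ≫ δ S X (𝟙_ C) ≫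
      S.obj X ◁ η S) h
    simp only [assoc, Functor.Monoidal.μ_δ_assoc, Functor.Monoidal.μ_δ] at h'
    simp only [whiskerLeft_comp, comp_whiskerRight, assoc]
    rw [h']
    simp

variable [Preadditive D] [MonoidalPreadditive D] [Abelian C] [MonoidalPreadditive C]
  [RigidCategory C] [BraidedCategory C]

open Functor.LaxMonoidal Functor.OplaxMonoidal

/-- If `H g = 0` then `g` vanishes after tensoring with a projective object. -/
lemma whiskerRight_eq_zero (S : C ⥤ D) [S.Monoidal] (H : D ⥤ C) [H.PreservesZeroMorphisms]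
    (hproj : ∀ (P : C), Projective P → ∀ {Y : D} (φ : S.obj P ⟶ Y), H.map φ = 0 → φ = 0)
    {Y : D} (g : 𝟙_ D ⟶ Y) (hg : H.map g = 0) (P : C) [Projective P] :
    g ▷ S.obj P = 0 := by
  letI := mapPairing S (ᘁP) P
  have h1 : ε_ (S.obj (ᘁP)) (S.obj P) ≫ g = 0 := by
    have h2 : δ S P (ᘁP) ≫ ε_ (S.obj (ᘁP)) (S.obj P) ≫ g = 0 := by
      apply hproj (P ⊗ (ᘁP)) (projective_tensor_right _ _)
      simp only [Functor.map_comp, hg, comp_zero]
    rw [← cancel_epi (δ S P (ᘁP)), h2, comp_zero]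
  have h3 : g ▷ S.obj P = (λ_ _).hom ≫ (ρ_ _).inv ≫ (S.obj P ◁ η_ (S.obj (ᘁP)) (S.obj P) ≫
      (α_ _ _ _).inv ≫ ε_ (S.obj (ᘁP)) (S.obj P) ▷ S.obj P) ≫ g ▷ S.obj P := by
    rw [ExactPairing.coevaluation_evaluation]
    simp
  rw [h3]
  simp only [assoc, ← comp_whiskerRight, h1, MonoidalPreadditive.zero_whiskerRight, comp_zero]

/-- If `H g ≠ 0` then `g ⊗ g'` vanishing forces the other factor to vanish after tensoring
with a projective object. -/
lemma whiskerRight_eq_zero_of_tensor (S : C ⥤ D) [S.Monoidal] [S.Full] [S.Faithful]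
    (H : D ⥤ C) [H.PreservesZeroMorphisms] (e : S ⋙ H ≅ 𝟭 C)
    (hinj : ∀ (I : C), Injective I → ∀ {Y : D} (ψ : H.obj Y ⟶ I),
      ∃ r : Y ⟶ S.obj I, H.map r ≫ e.hom.app I = ψ)
    (hidem : ∀ e : 𝟙_ C ⟶ 𝟙_ C, e ≫ e = e → e = 0 ∨ e = 𝟙 _)
    {X Y : D} (f : 𝟙_ D ⟶ X) (g : 𝟙_ D ⟶ Y) (hfg : f ⊗ₘ g = 0) (hg : H.map g ≠ 0)
    (P : C) [Projective P] :
    f ▷ S.obj P = 0 := by
  let φ : 𝟙_ C ⟶ H.obj Y := e.inv.app (𝟙_ C) ≫ H.map (η S) ≫ H.map g
  have hφ : φ ≠ 0 := by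
    intro h0
    apply hg
    have : H.map g = H.map (ε S) ≫ e.hom.app (𝟙_ C) ≫ φ := by
      simp only [φ]
      rw [Iso.hom_inv_id_app_assoc, ← Functor.map_comp_assoc]
      simp
    rw [this, h0]
    simp
  haveI : Mono φ := mono_of_ne_zero hidem φ hφ
  haveI : Injective (Pᘁ) := injective_rightDual P
  haveI : Injective (P ⊗ (Pᘁ)) := injective_tensor_left _ _
  let ψ : H.obj Y ⟶ P ⊗ (Pᘁ) := Injective.factorThru (η_ P (Pᘁ)) φ
  have hψ : φ ≫ ψ = η_ P (Pᘁ) := Injective.comp_factorThru _ _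
  obtain ⟨r, hr⟩ := hinj _ inferInstance ψ
  have h1 : η S ≫ g ≫ r = S.map (η_ P (Pᘁ)) := by
    obtain ⟨c, hc⟩ := S.map_surjective (η S ≫ g ≫ r)
    rw [← hc]
    congr 1
    have h2 : H.map (S.map c) ≫ e.hom.app _ = e.hom.app _ ≫ c := e.hom.naturality c
    have h3 : H.map (S.map c) ≫ e.hom.app _ = e.hom.app _ ≫ η_ P (Pᘁ) := by
      rw [hc, ← hψ]
      simp only [Functor.map_comp, assoc, hr, φ]
      rw [Iso.hom_inv_id_app_assoc]
    rw [h2] at h3
    exact (cancel_epi _).1 h3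
  letI := mapPairing S P (Pᘁ)
  have h2 : g ≫ r ≫ δ S _ _ = η_ (S.obj P) (S.obj (Pᘁ)) := by
    have h3 : g ≫ r = ε S ≫ S.map (η_ P (Pᘁ)) := by
      rw [← h1]; simp
    rw [reassoc_of% h3]
    rfl
  let ρg : Y ⊗ S.obj P ⟶ S.obj P :=
    (r ≫ δ S _ _) ▷ S.obj P ≫ (α_ _ _ _).hom ≫ S.obj P ◁ ε_ (S.obj P) (S.obj (Pᘁ)) ≫ (ρ_ _).hom
  have h4 : g ▷ S.obj P ≫ ρg = (λ_ _).hom := by
    simp only [ρg]
    rw [← comp_whiskerRight_assoc, h2]
    rw [ExactPairing.evaluation_coevaluation_assoc]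
    simp
  have h5 : (f ⊗ₘ g) ▷ S.obj P ≫ (α_ _ _ _).hom ≫ X ◁ ρg = 0 := by
    rw [hfg]; simp
  have h6 : (f ⊗ₘ g) ▷ S.obj P ≫ (α_ _ _ _).hom ≫ X ◁ ρg =
      (α_ _ _ _).hom ≫ 𝟙_ D ◁ (g ▷ S.obj P ≫ ρg) ≫ f ▷ S.obj P := by
    rw [tensorHom_def']
    simp only [comp_whiskerRight, assoc, whiskerLeft_comp]
    rw [associator_naturality_left_assoc, ← whisker_exchange, associator_naturality_middle_assoc]
  rw [h6, h4] at h5
  have : IsIso ((α_ (𝟙_ D) (𝟙_ D) (S.obj P)).hom ≫ 𝟙_ D ◁ (λ_ (S.obj P)).hom) := inferInstance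
  rw [← cancel_epi ((α_ (𝟙_ D) (𝟙_ D) (S.obj P)).hom ≫ 𝟙_ D ◁ (λ_ (S.obj P)).hom), comp_zero,
    assoc, h5]

end Pool.Agent.T2H69.TT
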