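import Mathlib

/-!
Abelian rigid monoidal categories: the unit object is simple when its endomorphisms are scalars,
and tensor products with projectives.
-/

universe v u w

open CategoryTheory MonoidalCategory Limits Category

namespace Pool.Agent.T2H69.TT

variable {C : Type u} [Category.{v} C] [MonoidalCategory C]

section Exact

instance tensorLeft_isLeftAdjoint [RigidCategory C] (X : C) : (tensorLeft X).IsLeftAdjoint :=
  (tensorLeftAdjunction (ᘁX) X).isLeftAdjoint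

instance tensorLeft_isRightAdjoint [RigidCategory C] (X : C) : (tensorLeft X).IsRightAdjoint :=
  (tensorLeftAdjunction X (Xᘁ)).isRightAdjoint

instance tensorRight_isLeftAdjoint [RigidCategory C] (X : C) : (tensorRight X).IsLeftAdjoint :=
  (tensorRightAdjunction X (Xᘁ)).isLeftAdjoint

instance tensorRight_isRightAdjoint [RigidCategory C] (X : C) : (tensorRight X).IsRightAdjoint :=
  (tensorRightAdjunction (ᘁX) X).isRightAdjoint

variable [RigidCategory C]

instance mono_whiskerLeft (X : C) {Y Z : C} (f : Y ⟶ Z) [Mono f] : Mono (X ◁ f) :=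
  inferInstanceAs (Mono ((tensorLeft X).map f))

instance epi_whiskerLeft (X : C) {Y Z : C} (f : Y ⟶ Z) [Epi f] : Epi (X ◁ f) :=
  inferInstanceAs (Epi ((tensorLeft X).map f))

instance mono_whiskerRight {Y Z : C} (f : Y ⟶ Z) [Mono f] (X : C) : Mono (f ▷ X) :=
  inferInstanceAs (Mono ((tensorRight X).map f))

instance epi_whiskerRight {Y Z : C} (f : Y ⟶ Z) [Epi f] (X : C) : Epi (f ▷ X) :=
  inferInstanceAs (Epi ((tensorRight X).map f))

lemma projective_tensor_left (X P : C) [Projective P] : Projective (X ⊗ P) := by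
  have h := (tensorLeftAdjunction (ᘁX) X).map_projective P inferInstance
  exact h

lemma projective_tensor_right (P X : C) [Projective P] : Projective (P ⊗ X) := by
  have h := (tensorRightAdjunction X (Xᘁ)).map_projective P inferInstance
  exact h

lemma injective_tensor_left (X I : C) [Injective I] : Injective (X ⊗ I) := by
  have h := (tensorLeftAdjunction X (Xᘁ)).map_injective I inferInstance
  exact h

end Exact

lemma rho_inv_lam : (ρ_ (𝟙_ C)).inv ≫ (λ_ (𝟙_ C)).hom = 𝟙 _ := by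
  rw [unitors_equal, Iso.inv_hom_id]

lemma lam_inv_rho : (λ_ (𝟙_ C)).inv ≫ (ρ_ (𝟙_ C)).hom = 𝟙 _ := by
  rw [← unitors_equal, Iso.inv_hom_id]

section Sharp

variable [RigidCategory C]

/-- The adjunct of a morphism `U ⟶ 𝟙`. -/
def sharp {U : C} (i : U ⟶ 𝟙_ C) : 𝟙_ C ⟶ Uᘁ :=
  η_ U (Uᘁ) ≫ i ▷ (Uᘁ) ≫ (λ_ (Uᘁ)).hom

variable [Abelian C] [MonoidalPreadditive C]

lemma whiskerLeft_sharp_eq_zero {U : C} (i : U ⟶ 𝟙_ C) (T : C) (h : T ◁ i = 0) :
    T ◁ sharp i = 0 := by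
  have h1 : T ◁ (i ▷ (Uᘁ)) = 0 := by
    have : T ◁ (i ▷ (Uᘁ)) = (α_ _ _ _).inv ≫ (T ◁ i) ▷ (Uᘁ) ≫ (α_ _ _ _).hom := by
      monoidal
    rw [this, h]
    simp
  simp only [sharp, whiskerLeft_comp]
  rw [h1]
  simp

lemma whiskerLeft_eq_zero_of_sharp {U : C} (i : U ⟶ 𝟙_ C) (T : C) (h : T ◁ sharp i = 0) :
    T ◁ i = 0 := by
  have h1 : i = (λ_ U).inv ≫ sharp i ▷ U ≫ ε_ U (Uᘁ) := by
    have h2 : (λ_ U).inv ≫ (sharp i ▷ U) ≫ ε_ U (Uᘁ) =
        (λ_ U).inv ≫ (η_ U (Uᘁ) ▷ U) ≫ (α_ _ _ _).hom ≫ (i ▷ (Uᘁ ⊗ U)) ≫ (𝟙_ C ◁ ε_ U (Uᘁ)) ≫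
          (λ_ _).hom := by
      simp only [sharp]
      monoidal
    rw [h2, ← whisker_exchange_assoc]
    simp [rho_inv_lam]
  rw [h1]
  have h2 : T ◁ (sharp i ▷ U) = 0 := by
    have : T ◁ (sharp i ▷ U) = (α_ _ _ _).inv ≫ (T ◁ sharp i) ▷ U ≫ (α_ _ _ _).hom := by
      monoidal
    rw [this, h]
    simp
  simp only [whiskerLeft_comp]
  rw [h2]
  simp

lemma epi_sharp {U : C} (i : U ⟶ 𝟙_ C) [Mono i] : Epi (sharp i) := by
  rw [Preadditive.epi_iff_cancel_zero]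
  intro Z a ha
  have h1 : sharp i ≫ a = (η_ U (Uᘁ) ≫ U ◁ a) ≫ i ▷ Z ≫ (λ_ Z).hom := by
    simp only [sharp, assoc]
    rw [whisker_exchange_assoc]
    simp
  rw [h1] at ha
  have h2 : η_ U (Uᘁ : C) ≫ U ◁ a = 0 := by
    have : Mono (i ▷ Z ≫ (λ_ Z).hom) := mono_comp _ _
    rw [← cancel_mono (i ▷ Z ≫ (λ_ Z).hom), ha, zero_comp]
  let U' : C := Uᘁ
  have h3 : a = (ρ_ _).inv ≫ U' ◁ (η_ U U' ≫ U ◁ a) ≫ (α_ _ _ _).inv ≫ (ε_ U U') ▷ Z ≫
      (λ_ Z).hom := by
    have h4 : (ρ_ _).inv ≫ U' ◁ (η_ U U' ≫ U ◁ a) ≫ (α_ _ _ _).inv ≫ (ε_ U U') ▷ Z ≫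
      (λ_ Z).hom = (ρ_ _).inv ≫ U' ◁ (η_ U U') ≫ (α_ _ _ _).inv ≫ (U' ⊗ U) ◁ a ≫
        (ε_ U U') ▷ Z ≫ (λ_ Z).hom := by
      monoidal
    rw [h4, whisker_exchange_assoc]
    simp
  rw [h3, h2]
  simp

lemma isZero_of_whiskerLeft_mono_zero {A B : C} (f : A ⟶ B) [Mono f] (h : f = 0) : IsZero A := by
  subst h
  exact IsZero.of_mono_eq_zero (0 : A ⟶ B) rfl

lemma isZero_of_epi_zero {A B : C} (f : A ⟶ B) [Epi f] (h : f = 0) : IsZero B := by
  subst h
  exact IsZero.of_epi_eq_zero (0 : A ⟶ B) rfl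

/-- The composition `U ⟶ 𝟙 ⟶ Uᘁ` attached to a monomorphism `U ⟶ 𝟙` is an isomorphism. -/
lemma isIso_comp_sharp [BraidedCategory C] {U : C} (i : U ⟶ 𝟙_ C) [Mono i] :
    IsIso (i ≫ sharp i) := by
  haveI := epi_sharp i
  -- first part : `U ◁ sharp i` is an isomorphism
  let j := kernel.ι (sharp i)
  have hK : (kernel (sharp i)) ◁ sharp i = 0 := by
    have h1 : (kernel (sharp i)) ◁ sharp i ≫ j ▷ (Uᘁ) = 0 := by
      rw [whisker_exchange]
      have h2 : 𝟙_ C ◁ sharp i = (λ_ _).hom ≫ sharp i ≫ (λ_ _).inv := by simp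
      have h3 : j ▷ 𝟙_ C = (ρ_ _).hom ≫ j ≫ (ρ_ _).inv := by simp
      rw [h2, h3]
      simp only [assoc, unitors_equal, Iso.inv_hom_id_assoc]
      rw [kernel.condition_assoc]
      simp
    rw [← cancel_mono (j ▷ (Uᘁ)), h1, zero_comp]
  have hK2 : IsZero ((kernel (sharp i)) ⊗ U) :=
    isZero_of_whiskerLeft_mono_zero _ (whiskerLeft_eq_zero_of_sharp i _ hK)
  have hK3 : IsZero (U ⊗ (kernel (sharp i))) := hK2.of_iso (β_ _ _)
  have m1 : Mono (U ◁ sharp i) := by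
    let S : ShortComplex C := ShortComplex.mk j (sharp i) (kernel.condition _)
    have hS : S.Exact := ShortComplex.exact_of_f_is_kernel _ (kernelIsKernel (sharp i))
    have hS' := hS.map (tensorLeft U)
    have : Mono ((tensorLeft U).map (sharp i)) := hS'.mono_g (hK3.eq_of_src _ _)
    exact this
  have i1 : IsIso (U ◁ sharp i) := isIso_of_mono_of_epi _
  -- second part : `i ▷ Uᘁ` is an isomorphism
  let q := cokernel.π i
  have hV : (cokernel i) ◁ i = 0 := by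
    have h1 : q ▷ U ≫ (cokernel i) ◁ i = 0 := by
      rw [← whisker_exchange]
      have h2 : 𝟙_ C ◁ i = (λ_ _).hom ≫ i ≫ (λ_ _).inv := by simp
      have h3 : q ▷ 𝟙_ C = (ρ_ _).hom ≫ q ≫ (ρ_ _).inv := by simp
      rw [h2, h3]
      simp only [assoc]
      rw [reassoc_of% (lam_inv_rho (C := C)), cokernel.condition_assoc]
      simp
    rw [← cancel_epi (q ▷ U), h1, comp_zero]
  have hV2 : IsZero ((cokernel i) ⊗ (Uᘁ)) :=
    isZero_of_epi_zero _ (whiskerLeft_sharp_eq_zero i _ hV)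
  have m2 : Epi (i ▷ (Uᘁ)) := by
    let S : ShortComplex C := ShortComplex.mk i q (cokernel.condition _)
    have hS : S.Exact := ShortComplex.exact_of_g_is_cokernel _ (cokernelIsCokernel i)
    have hS' := hS.map (tensorRight (Uᘁ))
    have : Epi ((tensorRight (Uᘁ)).map i) := hS'.epi_f (hV2.eq_of_tgt _ _)
    exact this
  have i2 : IsIso (i ▷ (Uᘁ)) := isIso_of_mono_of_epi _
  have h : i ≫ sharp i = (ρ_ _).inv ≫ (U ◁ sharp i) ≫ i ▷ (Uᘁ) ≫ (λ_ _).hom := by
    rw [whisker_exchange_assoc]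
    simp only [whiskerRight_id, id_whiskerLeft, assoc, Iso.inv_hom_id_assoc, Iso.inv_hom_id,
      comp_id]
    rw [reassoc_of% (rho_inv_lam (C := C))]
  rw [h]
  infer_instance

/-- If every idempotent endomorphism of the unit is trivial then a nonzero morphism from the
unit is a monomorphism. -/
lemma mono_of_ne_zero [BraidedCategory C]
    (hidem : ∀ e : 𝟙_ C ⟶ 𝟙_ C, e ≫ e = e → e = 0 ∨ e = 𝟙 _)
    {M : C} (φ : 𝟙_ C ⟶ M) (hφ : φ ≠ 0) : Mono φ := by
  let i := kernel.ι φ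
  haveI := isIso_comp_sharp i
  let e : 𝟙_ C ⟶ 𝟙_ C := sharp i ≫ inv (i ≫ sharp i) ≫ i
  have hie : i ≫ e = i := by
    have : i ≫ e = (i ≫ sharp i) ≫ inv (i ≫ sharp i) ≫ i := by simp only [e, assoc]
    rw [this, IsIso.hom_inv_id_assoc]
  have he : e ≫ e = e := by
    have : e ≫ e = sharp i ≫ inv (i ≫ sharp i) ≫ (i ≫ e) := by simp [e]
    rw [this, hie]
  rcases hidem e he with h | h
  · have : i = 0 := by rw [← hie, h, comp_zero]
    exact Preadditive.mono_of_kernel_zero this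
  · exfalso
    apply hφ
    have : φ = e ≫ φ := by rw [h, id_comp]
    rw [this]
    simp [e, i]

end Sharp

section Scalars

variable (k : Type w) [Field k] [Abelian C] [Linear k C]

/-- If the endomorphisms of the unit are the scalars then its idempotents are trivial. -/
lemma idem_of_scalar (hne : ¬ IsZero (𝟙_ C))
    (h : ∀ e : 𝟙_ C ⟶ 𝟙_ C, ∃ c : k, e = c • 𝟙 (𝟙_ C)) (e : 𝟙_ C ⟶ 𝟙_ C) (he : e ≫ e = e) :
    e = 0 ∨ e = 𝟙 _ := by
  obtain ⟨c, rfl⟩ := h e
  have hne' : 𝟙 (𝟙_ C) ≠ 0 := fun h0 => hne ((IsZero.iff_id_eq_zero _).2 h0)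
  have h2 : (c * c - c) • 𝟙 (𝟙_ C) = 0 := by
    rw [sub_smul, sub_eq_zero]
    simpa [smul_smul] using he
  rcases smul_eq_zero.1 h2 with h3 | h3
  · have : c * (c - 1) = 0 := by rw [← h3]; ring
    rcases mul_eq_zero.1 this with h4 | h4
    · left; rw [h4, zero_smul]
    · right; rw [sub_eq_zero.1 h4, one_smul]
  · exact absurd h3 hne'

end Scalars

section Inj

variable [RigidCategory C] [Abelian C] [MonoidalPreadditive C]

/-- The right dual of a projective object is injective. -/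
lemma injective_rightDual (P : C) [Projective P] : Injective (Pᘁ) where
  factors {A B} g f _ := by
    -- `f : A ⟶ B` mono, `g : A ⟶ Pᘁ`
    let q := cokernel.π f
    let S : ShortComplex C := ShortComplex.mk f q (cokernel.condition _)
    have hS : S.ShortExact :=
      { exact := ShortComplex.exact_of_g_is_cokernel _ (cokernelIsCokernel f)
        mono_f := inferInstanceAs (Mono f)
        epi_g := inferInstanceAs (Epi q) }
    have hS' := hS.map_of_exact (tensorRight P)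
    haveI : Projective ((S.map (tensorRight P)).X₃) := projective_tensor_left (cokernel f) P
    let s := hS'.splittingOfProjective
    let r : B ⊗ P ⟶ A ⊗ P := s.r
    have hr : f ▷ P ≫ r = 𝟙 _ := s.f_r
    let g' : A ⊗ P ⟶ 𝟙_ C := (tensorRightHomEquiv A P (Pᘁ) (𝟙_ C)).symm (g ≫ (λ_ _).inv)
    let h' : B ⊗ P ⟶ 𝟙_ C := r ≫ g'
    refine ⟨(tensorRightHomEquiv B P (Pᘁ) (𝟙_ C)) h' ≫ (λ_ _).hom, ?_⟩
    have h1 : (tensorRightHomEquiv A P (Pᘁ) (𝟙_ C)).symm
        (f ≫ (tensorRightHomEquiv B P (Pᘁ) (𝟙_ C)) h') = g' := by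
      rw [tensorRightHomEquiv_symm_naturality, Equiv.symm_apply_apply]
      simp only [h']
      rw [reassoc_of% hr]
    have h2 : f ≫ (tensorRightHomEquiv B P (Pᘁ) (𝟙_ C)) h' = g ≫ (λ_ _).inv := by
      apply (tensorRightHomEquiv A P (Pᘁ) (𝟙_ C)).symm.injective
      rw [h1]
    rw [reassoc_of% h2]
    simp

end Inj

end Pool.Agent.T2H69.TT
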